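import Pool.Agent.helper56.P3.Util
import Pool.Agent.helper39.P3.WBasic
import Pool.Agent.helper96.P3.Return

set_option linter.all false

/-!
# P3-A5a: classification of cycles at an end, residue characteristic zero
-/

namespace Pool.Agent.helper56.P3

open Finset Pool.Agent.helper56.Per

variable {K : Type*} [Field K] {a b c x3 : K} {n m q : ℕ} {lam lam' : K} {W W' : ℕ → K}
variable {Γ : Type*} [LinearOrderedCommGroupWithZero Γ] (v : Valuation K Γ)

theorem end_ctx (hz : CharZ v) (rel : a * b * x3 = a + b + x3 - 2) (ha : v a ≤ 1)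
    (hb : v b ≤ 1) (hx : 1 < v x3) (hc : c ^ 2 = 1 - a * b) (hc0 : c ≠ 0) : Ctx v b c := by
  have hvc0 : v c ≠ 0 := (v.ne_zero_iff).2 hc0
  have h2 : v (2 : K) ≤ 1 := by
    have := hz 2 (by norm_num)
    exact_mod_cast this.le
  -- `v c < 1`
  have hvc : v c < 1 := by
    have e : c ^ 2 * x3 = 2 - a - b := by rw [hc]; linear_combination -rel
    have h3 : v (c ^ 2 * x3) ≤ 1 := by
      rw [e]
      exact v.map_sub_le (v.map_sub_le h2 ha) hb
    by_contra hge
    rw [not_lt] at hge
    have h4 : (1 : Γ) ≤ v (c ^ 2) := by rw [map_pow]; exact one_le_pow_of_one_le' hge 2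
    rw [map_mul] at h3
    have h5 : 1 < v (c ^ 2) * v x3 :=
      calc (1 : Γ) < v x3 := hx
        _ = 1 * v x3 := (one_mul _).symm
        _ ≤ v (c ^ 2) * v x3 := mul_le_mul_left h4 _
    exact absurd h3 (not_le.2 h5)
  have hvc2 : v (c ^ 2) < 1 := by
    rw [map_pow, pow_two]
    calc v c * v c ≤ v c * 1 := mul_le_mul_right hvc.le _
      _ = v c := mul_one _
      _ < 1 := hvc
  -- `v b = 1`
  have hab : v (a * b) = 1 := by
    have e : a * b = 1 + -(c ^ 2) := by rw [hc]; ring
    rw [e, Valuation.map_add_eq_of_lt_left v (by rwa [Valuation.map_neg, map_one]), map_one]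
  have hvb : v b = 1 := by
    rw [map_mul] at hab
    refine le_antisymm hb ?_
    calc (1 : Γ) = v a * v b := hab.symm
      _ ≤ 1 * v b := mul_le_mul_left ha _
      _ = v b := one_mul _
  refine ⟨hvb, hvc, hc0, ?_⟩
  by_contra hle
  rw [not_lt] at hle
  have hc2c : v (c ^ 2) ≤ v c := by
    rw [map_pow, pow_two]
    calc v c * v c ≤ v c * 1 := mul_le_mul_right hvc.le _
      _ = v c := mul_one _
  have ha1 : v (a - 1) ≤ v c := by
    have e : b * (a - 1) = -(b - 1) - c ^ 2 := by rw [hc]; ring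
    have h3 : v (b * (a - 1)) ≤ v c := by
      rw [e]
      exact v.map_sub_le (by rwa [Valuation.map_neg]) hc2c
    rwa [map_mul, hvb, one_mul] at h3
  have e : (a - 1) * (b - 1) = c ^ 2 * (x3 - 1) := by rw [hc]; linear_combination rel
  have hx1 : v (x3 - 1) = v x3 := by
    rw [Valuation.map_sub_eq_of_lt_left v (by rwa [map_one])]
  have h4 : v ((a - 1) * (b - 1)) ≤ v c * v c := by
    rw [map_mul]
    exact mul_le_mul' ha1 hle
  rw [e, map_mul, hx1, map_pow, pow_two] at h4
  have h5 : v c * v c * 1 < v c * v c * v x3 :=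
    (mul_lt_mul_iff_right₀ (zero_lt_iff.2 (mul_ne_zero hvc0 hvc0))).2 hx
  rw [mul_one] at h5
  exact absurd h4 (not_le.2 h5)

theorem Rot.unique (hc : Ctx v b c) {q q' : ℕ} (h : Rot v b c q) (h' : Rot v b c q') :
    q = q' := by
  rcases lt_trichotomy q q' with hlt | heq | hgt
  · exfalso
    have h1 := h'.one q (by have := h.two_le; omega) hlt
    have h2 := h.le
    rw [h1] at h2
    exact absurd hc.vc (not_lt.2 h2)
  · exact heq
  · exfalso
    have h1 := h.one q' (by have := h'.two_le; omega) hgt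
    have h2 := h'.le
    rw [h1] at h2
    exact absurd hc.vc (not_lt.2 h2)

/-- powers of a unit -/
theorem A5.vpow {v : Valuation K Γ} {b : K} (hb : v b = 1) (j : ℕ) : v (b ^ j) = 1 := by
  rw [map_pow, hb, one_pow]

/-- the geometric sum -/
theorem A5.geom (b : K) (q d : ℕ) :
    b ^ (q * d) - 1 = (b ^ q - 1) * ∑ i ∈ range d, b ^ (q * i) := by
  rw [pow_mul, ← geom_sum_mul (b ^ q) d, mul_comm]
  congr 1
  exact Finset.sum_congr rfl fun i _ => (pow_mul b q i).symm

theorem A5.sum_le {v : Valuation K Γ} {b : K} (hb : v b = 1) (q d : ℕ) :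
    v (∑ i ∈ range d, b ^ (q * i)) ≤ 1 :=
  Valuation.map_sum_le v fun i _ => (A5.vpow hb _).le

/-- `v (b^(q d) - 1) ≤ v (b^q - 1)` -/
theorem A5.pow_mul_le {v : Valuation K Γ} {b : K} (hb : v b = 1) (q d : ℕ) :
    v (b ^ (q * d) - 1) ≤ v (b ^ q - 1) := by
  rw [A5.geom, map_mul]
  calc v (b ^ q - 1) * v (∑ i ∈ range d, b ^ (q * i)) ≤ v (b ^ q - 1) * 1 :=
        mul_le_mul_right (A5.sum_le hb q d) _
    _ = _ := mul_one _

/-- equality in residue characteristic zero -/
theorem A5.pow_mul_eq {v : Valuation K Γ} {b : K} (hz : CharZ v) (hb : v b = 1) {q d : ℕ}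
    (hd : d ≠ 0) (hq : v (b ^ q - 1) < 1) : v (b ^ (q * d) - 1) = v (b ^ q - 1) := by
  have h1 : v (∑ i ∈ range d, b ^ (q * i)) = 1 := by
    refine v_eq_one_of_sub (y := ((d : ℕ) : K)) ?_ (hz d hd)
    have e : ∑ i ∈ range d, b ^ (q * i) - ((d : ℕ) : K) = ∑ i ∈ range d, (b ^ (q * i) - 1) := by
      rw [Finset.sum_sub_distrib]
      simp
    rw [e]
    exact Valuation.map_sum_lt' v zero_lt_one fun i _ =>
      lt_of_le_of_lt (A5.pow_mul_le hb q i) hq
  rw [A5.geom, map_mul, h1, mul_one]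

theorem Rot.pow_one (hc : Ctx v b c) (hr : Rot v b c q) {j : ℕ} (hj : ¬ q ∣ j) :
    v (b ^ j - 1) = 1 := by
  have hq : 0 < q := by have := hr.two_le; omega
  have hr0 : 0 < j % q := Nat.pos_of_ne_zero fun h => hj (Nat.dvd_of_mod_eq_zero h)
  have h1 := hr.one (j % q) hr0 (Nat.mod_lt _ hq)
  have e : b ^ j - 1 = b ^ (q * (j / q)) * (b ^ (j % q) - 1) + (b ^ (q * (j / q)) - 1) := by
    conv_lhs => rw [← Nat.div_add_mod j q]
    rw [pow_add]
    ring
  have h2 : v (b ^ (q * (j / q)) * (b ^ (j % q) - 1)) = 1 := by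
    rw [map_mul, A5.vpow hc.vb, h1, one_mul]
  have h3 : v (b ^ (q * (j / q)) - 1) < 1 :=
    lt_of_le_of_lt (A5.pow_mul_le hc.vb _ _) (lt_of_le_of_lt hr.le hc.vc)
  rw [e, Valuation.map_add_eq_of_lt_left v (by rwa [h2]), h2]

theorem Rot.pow_dvd (hc : Ctx v b c) (hz : CharZ v) (hr : Rot v b c q) {j : ℕ} (hj : q ∣ j)
    (hj0 : j ≠ 0) : v (b ^ j - 1) = v (b ^ q - 1) := by
  obtain ⟨d, rfl⟩ := hj
  exact A5.pow_mul_eq hz hc.vb (by rintro rfl; simp at hj0) (lt_of_le_of_lt hr.le hc.vc)

theorem classify (hc : Ctx v b c) (hz : CharZ v) (h : WCyc b c n lam W) (hl : v lam = 1) :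
    (TyO v W ∧ v (b ^ n - 1) < v c) ∨
      (∃ q, q ≤ n ∧ Rot v b c q ∧ (TyI v W ∨ TyII v W)) := by
  have hvc0 : v c ≠ 0 := (v.ne_zero_iff).2 hc.c0
  by_cases hO : TyO v W
  · left
    refine ⟨hO, ?_⟩
    rw [← h.prod_one]
    have key : ∀ N, v (∏ i ∈ range N, (1 - c / W i) - 1) < v c := by
      intro N
      induction N with
      | zero => simpa using zero_lt_iff.2 hvc0
      | succ N ih =>
        rw [Finset.prod_range_succ]
        have h1 : v (c / W N) < v c := by
          rw [map_div₀]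
          have h2 := hO N
          have h3 : v (W N)⁻¹ < 1 := v_inv_lt_one h2
          rw [map_inv₀] at h3
          rw [div_eq_mul_inv]
          calc v c * (v (W N))⁻¹ < v c * 1 :=
                (mul_lt_mul_iff_right₀ (zero_lt_iff.2 hvc0)).2 h3
            _ = v c := mul_one _
        have h4 : v (1 - c / W N) ≤ 1 :=
          v.map_sub_le (by rw [map_one]) (h1.trans hc.vc).le
        have e : (∏ i ∈ range N, (1 - c / W i)) * (1 - c / W N) - 1 =
            (∏ i ∈ range N, (1 - c / W i) - 1) * (1 - c / W N) - c / W N := by ring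
        rw [e]
        refine Valuation.map_sub_lt v ?_ h1
        rw [map_mul]
        calc v (∏ i ∈ range N, (1 - c / W i) - 1) * v (1 - c / W N)
            ≤ v (∏ i ∈ range N, (1 - c / W i) - 1) * 1 := mul_le_mul_right h4 _
          _ = v (∏ i ∈ range N, (1 - c / W i) - 1) := mul_one _
          _ < v c := ih
    exact key n
  · right
    have hO' : ∃ i, v (W i) ≤ 1 := by
      unfold TyO at hO
      push Not at hO
      exact hO
    -- a central point
    obtain ⟨i, hi⟩ : ∃ i, v (W i) = 1 := by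
      by_cases hII : TyII v W
      · obtain ⟨i, hi, _⟩ := h.near_exists v hc.vb hl hII
        exact ⟨i, hi⟩
      · unfold TyII at hII
        push Not at hII
        obtain ⟨i, hi⟩ := hO'
        exact ⟨i, le_antisymm hi (hII i)⟩
    obtain ⟨s, hs, hsn⟩ := h.exists_gap v (i0 := i) hi.le i
    have hs0 : 0 < s := hs.1
    have hTT : v (b ^ s - 1) ≤ v c := by
      have h1 := h.gap_eq v hc hs
      have h2 : v (W i + (W i)⁻¹) ≤ 1 :=
        v.map_add_le hi.le (by rw [map_inv₀, hi, inv_one])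
      have h3 : v (b ^ s * (Us b c * TT b c s)) ≤ 1 := by
        have e : b ^ s * (Us b c * TT b c s) =
            (W i + (W i)⁻¹ + b ^ s * (Us b c * TT b c s)) - (W i + (W i)⁻¹) := by ring
        rw [e]
        exact v.map_sub_le h1 h2
      have hUs : v (Us b c) = 1 :=
        v_eq_one_of_sub ((Ctx.us v hc).trans hc.vc) (map_one _)
      rw [map_mul, map_mul, A5.vpow hc.vb, hUs, one_mul, one_mul] at h3
      rw [← v_TT hc.vb hc.c0]
      calc v (TT b c s) * v c ≤ 1 * v c := mul_le_mul_left h3 _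
        _ = v c := one_mul _
    have hex : ∃ j, 0 < j ∧ v (b ^ j - 1) < 1 := ⟨s, hs0, lt_of_le_of_lt hTT hc.vc⟩
    classical
    set q := Nat.find hex with hq
    have hqs := Nat.find_spec hex
    have hqmin : ∀ j, 0 < j → j < q → v (b ^ j - 1) = 1 := by
      intro j hj0 hjq
      have h1 := Nat.find_min hex hjq
      push Not at h1
      refine le_antisymm ?_ (h1 hj0)
      exact v.map_sub_le (A5.vpow hc.vb j).le (by rw [map_one])
    have hqle : q ≤ s := Nat.find_le ⟨hs0, lt_of_le_of_lt hTT hc.vc⟩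
    have hqdvd : q ∣ s := by
      by_contra hnd
      have hr0 : 0 < s % q := Nat.pos_of_ne_zero fun h => hnd (Nat.dvd_of_mod_eq_zero h)
      have h1 := hqmin (s % q) hr0 (Nat.mod_lt _ hqs.1)
      have e : b ^ s - 1 = b ^ (q * (s / q)) * (b ^ (s % q) - 1) + (b ^ (q * (s / q)) - 1) := by
        conv_lhs => rw [← Nat.div_add_mod s q]
        rw [pow_add]
        ring
      have h2 : v (b ^ (q * (s / q)) * (b ^ (s % q) - 1)) = 1 := by
        rw [map_mul, A5.vpow hc.vb, h1, one_mul]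
      have h3 : v (b ^ (q * (s / q)) - 1) < 1 :=
        lt_of_le_of_lt (A5.pow_mul_le hc.vb _ _) hqs.2
      have h4 : v (b ^ s - 1) = 1 := by
        rw [e, Valuation.map_add_eq_of_lt_left v (by rwa [h2]), h2]
      rw [h4] at hTT
      exact absurd hc.vc (not_lt.2 hTT)
    have hqc : v (b ^ q - 1) ≤ v c := by
      obtain ⟨d, hd⟩ := hqdvd
      have hd0 : d ≠ 0 := by rintro rfl; rw [mul_zero] at hd; omega
      rw [hd, A5.pow_mul_eq hz hc.vb hd0 hqs.2] at hTT
      exact hTT
    have hq2 : 2 ≤ q := by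
      by_contra hlt
      have hq1 : q = 1 := by have := hqs.1; omega
      rw [hq1, _root_.pow_one] at hqc
      exact absurd hc.hbc (not_lt.2 hqc)
    refine ⟨q, hqle.trans hsn, ⟨hq2, hqmin, hqc⟩, ?_⟩
    by_cases hII : TyII v W
    · exact Or.inr hII
    · left
      unfold TyII at hII
      push Not at hII
      refine ⟨hII, ⟨i, hi⟩, fun j hj => ?_⟩
      rw [h.no_near v hc.vb hl hII j, hj, one_pow]

end Pool.Agent.helper56.P3
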