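import Pool.Agent.helper56.P3.Util
import Pool.Agent.helper95.P3.ClassifyA

set_option linter.all false

/-!
# P3-A5b: the itinerary of a cycle at an end, residue characteristic zero
-/

namespace Pool.Agent.helper56.P3

open Finset Pool.Agent.helper56.Per

variable {K : Type*} [Field K] {a b c x3 : K} {n m q : ℕ} {lam lam' : K} {W W' : ℕ → K}
variable {Γ : Type*} [LinearOrderedCommGroupWithZero Γ] (v : Valuation K Γ)

section aux

variable {v}

theorem A5.vinvpow (hb : v b = 1) (j : ℕ) : v (b⁻¹ ^ j) = 1 := by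
  rw [map_pow, map_inv₀, hb, inv_one, one_pow]

theorem A5.vUs (hc : Ctx v b c) : v (Us b c) = 1 :=
  v_eq_one_of_sub ((Ctx.us v hc).trans hc.vc) (map_one _)

theorem A5.one_sub_inv (hb : v b = 1) (j : ℕ) : v (1 - b⁻¹ ^ j) = v (b ^ j - 1) := by
  have hb0 : b ≠ 0 := ne_zero_of_v_one hb
  have e : (1 - b⁻¹ ^ j) = b⁻¹ ^ j * (b ^ j - 1) := by
    rw [mul_sub, mul_one, ← mul_pow, inv_mul_cancel₀ hb0, one_pow]
  rw [e, map_mul, A5.vinvpow hb, one_mul]

theorem A5.cTT (hc0 : c ≠ 0) (j : ℕ) : c * TT b c j = 1 - b⁻¹ ^ j := by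
  unfold TT
  field_simp

/-- `|TT j| > 1` if `q ∤ j` -/
theorem A5.TT_gt (hc : Ctx v b c) {j : ℕ} (h : v (b ^ j - 1) = 1) : 1 < v (TT b c j) := by
  have h1 := v_TT hc.vb hc.c0 j
  rw [h] at h1
  by_contra hle
  rw [not_lt] at hle
  have : (1 : Γ) ≤ v c := by
    rw [← h1]
    calc v (TT b c j) * v c ≤ 1 * v c := mul_le_mul_left hle _
      _ = v c := one_mul _
  exact absurd hc.vc (not_lt.2 this)

end aux

/-- the same for an orbit segment starting at a central point (used for the critical orbit) -/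
theorem central_orbit (hc : Ctx v b c) (hr : Rot v b c q) {x : ℕ → K}
    (hx : ∀ l < q, x (l + 1) = (x l + (x l)⁻¹ + (b - 1 - c ^ 2) / c) / b) (h0 : v (x 0) = 1) :
    (∀ l, 0 < l → l < q → 1 < v (x l) ∧ v (c * x l - (1 - b⁻¹ ^ l)) < 1) ∧
      v (x q - (x 0 + (x 0)⁻¹ + TT b c q)) < 1 := by
  have hs0 : v (x 0 + (x 0)⁻¹) ≤ 1 :=
    v.map_add_le h0.le (by rw [map_inv₀, h0, inv_one])
  have hUs1 : v (Us b c - 1) < 1 := (Ctx.us v hc).trans hc.vc
  have hfirst : ∀ l, 0 < l → l < q → 1 < v (x l) ∧ v (c * x l - (1 - b⁻¹ ^ l)) < 1 := by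
    intro l
    induction l using Nat.strong_induction_on with
    | _ l ih =>
      intro hl hlq
      have h1 := ret_orbit v hc hl (x := x) (fun t ht => hx t (ht.trans hlq))
        (fun t ht htl => (ih t htl ht (htl.trans hlq)).1)
      have hbl : v (b ^ l - 1) = 1 := hr.one l hl hlq
      have hT : 1 < v (TT b c l) := A5.TT_gt hc hbl
      have hUT : v (Us b c * TT b c l) = v (TT b c l) := by rw [map_mul, A5.vUs hc, one_mul]
      have h2 : v (b⁻¹ ^ l * (x 0 + (x 0)⁻¹)) ≤ 1 := by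
        rw [map_mul, A5.vinvpow hc.vb, one_mul]; exact hs0
      constructor
      · have h3 : v (b⁻¹ ^ l * (x 0 + (x 0)⁻¹) + Us b c * TT b c l) = v (TT b c l) := by
          rw [Valuation.map_add_eq_of_lt_right v (by rw [hUT]; exact lt_of_le_of_lt h2 hT), hUT]
        have h4 : v (x l) = v (TT b c l) := by
          rw [← h3]
          exact v_eq_of_sub_lt (by rw [h3]; exact h1.trans hT)
        rw [h4]; exact hT
      · have e : c * x l - (1 - b⁻¹ ^ l) =
            c * (x l - (b⁻¹ ^ l * (x 0 + (x 0)⁻¹) + Us b c * TT b c l)) +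
              c * (b⁻¹ ^ l * (x 0 + (x 0)⁻¹)) + (Us b c - 1) * (1 - b⁻¹ ^ l) := by
          have := A5.cTT (b := b) hc.c0 l
          linear_combination (Us b c) * this
        rw [e]
        refine Valuation.map_add_lt v (Valuation.map_add_lt v ?_ ?_) ?_
        · rw [map_mul]; exact lt1_of_lt_of_le hc.vc h1.le
        · rw [map_mul]; exact lt1_of_lt_of_le hc.vc h2
        · rw [map_mul, A5.one_sub_inv hc.vb, hbl, mul_one]; exact hUs1
  refine ⟨hfirst, ?_⟩
  have hq : 0 < q := by have := hr.two_le; omega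
  have h1 := ret_orbit v hc hq (x := x) hx (fun t ht htl => (hfirst t ht htl).1)
  have e : x q - (x 0 + (x 0)⁻¹ + TT b c q) =
      (x q - (b⁻¹ ^ q * (x 0 + (x 0)⁻¹) + Us b c * TT b c q)) -
        (1 - b⁻¹ ^ q) * (x 0 + (x 0)⁻¹) + (Us b c - 1) * TT b c q := by ring
  rw [e]
  refine Valuation.map_add_lt v (Valuation.map_sub_lt v h1 ?_) ?_
  · rw [map_mul, A5.one_sub_inv hc.vb]
    exact lt1_of_lt_of_le (lt_of_le_of_lt hr.le hc.vc) hs0
  · rw [map_mul]; exact lt1_of_lt_of_le hUs1 (TT_le_of_rot hc hr)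

theorem WCyc.central_next (h : WCyc b c n lam W) (hc : Ctx v b c) (hr : Rot v b c q) {i : ℕ}
    (hi : v (W i) = 1) :
    (∀ l, 0 < l → l < q → 1 < v (W (i + l)) ∧ v (c * W (i + l) - (1 - b⁻¹ ^ l)) < 1) ∧
      v (W (i + q) - (W i + (W i)⁻¹ + TT b c q)) < 1 :=
  central_orbit v hc hr (x := fun l => W (i + l)) (fun l _ => h.step' (i + l)) hi

theorem WCyc.hole_next (h : WCyc b c n lam W) (hc : Ctx v b c) (hz : CharZ v)
    (hr : Rot v b c q) {i : ℕ} (hi : v (W i) < 1) :
    v (W i) = v c ∧ ∃ s, s < q ∧ IsGap v W i s ∧ v (c / W i - (1 - b ^ s)) < 1 ∧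
      ∀ l, 0 < l → l < s → v (c * W (i + l) - (1 - b ^ (s - l))) < 1 := by
  have hb0 : b ≠ 0 := hc.b0
  have hUs1 : v (Us b c - 1) < 1 := (Ctx.us v hc).trans hc.vc
  obtain ⟨s, hs, hsn⟩ := h.exists_gap v (i0 := i) hi.le i
  have hs0 : 0 < s := hs.1
  have hgap := h.gap_eq v hc hs
  set R := (W i)⁻¹ with hR
  have hRgt : 1 < v R := v_inv_gt_one (h.ne0 i) hi
  -- `R + b^s Us TT s` is integral
  have hR2 : v (R + b ^ s * (Us b c * TT b c s)) ≤ 1 := by
    have e : R + b ^ s * (Us b c * TT b c s) =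
        (W i + R + b ^ s * (Us b c * TT b c s)) - W i := by ring
    rw [e]
    exact v.map_sub_le hgap hi.le
  have hvT : v (b ^ s * (Us b c * TT b c s)) = v (TT b c s) := by
    rw [map_mul, map_mul, A5.vpow hc.vb, A5.vUs hc, one_mul, one_mul]
  have hRT : v R = v (TT b c s) := by
    have h1 : v (R - -(b ^ s * (Us b c * TT b c s))) ≤ 1 := by rwa [sub_neg_eq_add]
    rw [← hvT, ← Valuation.map_neg v (b ^ s * (Us b c * TT b c s))]
    have e : -(b ^ s * (Us b c * TT b c s)) = R - (R - -(b ^ s * (Us b c * TT b c s))) := by ring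
    conv_rhs => rw [e]
    rw [Valuation.map_sub_eq_of_lt_left v (lt_of_le_of_lt h1 hRgt)]
  have hTgt : 1 < v (TT b c s) := by rwa [← hRT]
  have hqs : ¬ q ∣ s := by
    intro hd
    have h1 := hr.pow_dvd v hc hz hd hs0.ne'
    have h2 := v_TT hc.vb hc.c0 s
    rw [h1] at h2
    have hvc0 : v c ≠ 0 := (v.ne_zero_iff).2 hc.c0
    have h3 : v (TT b c s) * v c ≤ 1 * v c := by rw [h2, one_mul]; exact hr.le
    exact absurd hTgt (not_lt.2 (le_of_mul_le_mul_right h3 (zero_lt_iff.2 hvc0)))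
  have hbs : v (b ^ s - 1) = 1 := hr.pow_one v hc hqs
  have hvW : v (W i) = v c := by
    have h1 := v_TT hc.vb hc.c0 s
    rw [hbs, ← hRT, hR, map_inv₀] at h1
    have hW0 : v (W i) ≠ 0 := (v.ne_zero_iff).2 (h.ne0 i)
    have h2 : v c = v (W i) := by
      calc v c = v (W i) * ((v (W i))⁻¹ * v c) := by rw [← mul_assoc, mul_inv_cancel₀ hW0, one_mul]
        _ = v (W i) := by rw [h1, mul_one]
    exact h2.symm
  -- residue of `c / W i`
  have hcR : v (c / W i - (1 - b ^ s)) < 1 := by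
    have e : c / W i - (1 - b ^ s) =
        c * (R + b ^ s * (Us b c * TT b c s)) - (Us b c - 1) * (b ^ s - 1) := by
      have h1 := A5.cTT (b := b) hc.c0 s
      have h2 : b ^ s * b⁻¹ ^ s = 1 := by rw [← mul_pow, mul_inv_cancel₀ hb0, one_pow]
      rw [div_eq_mul_inv, ← hR]
      linear_combination (-(b ^ s * Us b c)) * h1 + (Us b c) * h2
    rw [e]
    refine Valuation.map_sub_lt v ?_ ?_
    · rw [map_mul]; exact lt1_of_lt_of_le hc.vc hR2
    · rw [map_mul, hbs, mul_one]; exact hUs1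
  -- segments
  have hret : ∀ l, 0 < l → l ≤ s →
      v (W (i + l) - (b⁻¹ ^ l * (W i + R) + Us b c * TT b c l)) < 1 := fun l hl hls =>
    h.ret v hc hl fun t ht htl => hs.2.2 t ht (lt_of_lt_of_le htl hls)
  have hsq : s < q := by
    by_contra hge
    rw [not_lt] at hge
    have hq : 0 < q := by have := hr.two_le; omega
    set j := s % q with hj
    have hj0 : 0 < j := Nat.pos_of_ne_zero fun h => hqs (Nat.dvd_of_mod_eq_zero h)
    have hjs : j < s := lt_of_lt_of_le (Nat.mod_lt _ hq) hge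
    have h1 := hret j hj0 hjs.le
    have hdj : q ∣ s - j := Nat.dvd_sub_mod s
    have hd : v (b ^ (s - j) - 1) ≤ v c := by
      obtain ⟨d, hd⟩ := hdj
      rw [hd]
      exact (A5.pow_mul_le hc.vb q d).trans hr.le
    -- `b^j W_{i+j}` is integral
    have e : b ^ j * W (i + j) =
        b ^ j * (W (i + j) - (b⁻¹ ^ j * (W i + R) + Us b c * TT b c j)) + W i +
          (R + b ^ s * (Us b c * TT b c s)) - Us b c * (b ^ j * ((b ^ (s - j) - 1) / c)) := by
      have h2 : b ^ j * b⁻¹ ^ j = 1 := by rw [← mul_pow, mul_inv_cancel₀ hb0, one_pow]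
      have h3 : b ^ s * b⁻¹ ^ s = 1 := by rw [← mul_pow, mul_inv_cancel₀ hb0, one_pow]
      have h4 : b ^ s = b ^ j * b ^ (s - j) := by
        rw [← pow_add]; congr 1; omega
      have h5 : b ^ j * TT b c j = (b ^ j - 1) / c := by
        unfold TT
        rw [mul_div_assoc', mul_sub, h2, mul_one]
      have h6 : b ^ s * TT b c s = (b ^ s - 1) / c := by
        unfold TT
        rw [mul_div_assoc', mul_sub, h3, mul_one]
      have h7 : b ^ j * ((b ^ (s - j) - 1) / c) = (b ^ s - 1) / c - (b ^ j - 1) / c := by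
        rw [h4]; ring
      rw [h7]
      linear_combination (W i + R) * h2 + (Us b c) * h5 - (Us b c) * h6
    have h8 : v (b ^ j * W (i + j)) ≤ 1 := by
      rw [e]
      refine v.map_sub_le (v.map_add_le (v.map_add_le ?_ hi.le) hR2) ?_
      · rw [map_mul, A5.vpow hc.vb, one_mul]; exact h1.le
      · rw [map_mul, A5.vUs hc, one_mul, map_mul, A5.vpow hc.vb, one_mul, map_div₀]
        have hvc0 : v c ≠ 0 := (v.ne_zero_iff).2 hc.c0
        exact div_le_one_of_le₀ hd zero_le
    rw [map_mul, A5.vpow hc.vb, one_mul] at h8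
    exact absurd (hs.2.2 j hj0 hjs) (not_lt.2 h8)
  refine ⟨hvW, s, hsq, hs, hcR, fun l hl hls => ?_⟩
  have h1 := hret l hl hls.le
  have hbl : v (b ^ l - 1) = 1 := hr.one l hl (hls.trans hsq)
  have e : c * W (i + l) - (1 - b ^ (s - l)) =
      c * (W (i + l) - (b⁻¹ ^ l * (W i + R) + Us b c * TT b c l)) + b⁻¹ ^ l * (c * W i) +
        b⁻¹ ^ l * (c / W i - (1 - b ^ s)) + (Us b c - 1) * (1 - b⁻¹ ^ l) := by
    have h2 := A5.cTT (b := b) hc.c0 l
    have h3 : b⁻¹ ^ l * b ^ s = b ^ (s - l) := by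
      have : b ^ s = b ^ l * b ^ (s - l) := by rw [← pow_add]; congr 1; omega
      rw [this, ← mul_assoc, ← mul_pow, inv_mul_cancel₀ hb0, one_pow, one_mul]
    rw [div_eq_mul_inv, ← hR]
    linear_combination (Us b c) * h2 - h3
  rw [e]
  refine Valuation.map_add_lt v (Valuation.map_add_lt v (Valuation.map_add_lt v ?_ ?_) ?_) ?_
  · rw [map_mul]; exact lt1_of_lt_of_le hc.vc h1.le
  · rw [map_mul, A5.vinvpow hc.vb, one_mul, map_mul]; exact lt1_of_lt_of_le hc.vc hi.le
  · rw [map_mul, A5.vinvpow hc.vb, one_mul]; exact hcR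
  · rw [map_mul, A5.one_sub_inv hc.vb, hbl, mul_one]; exact hUs1

theorem A5.per_mul (h : WCyc b c n lam W) (i t : ℕ) : W (i + t * n) = W i := by
  induction t with
  | zero => simp
  | succ t ih => rw [Nat.succ_mul, ← add_assoc, h.per, ih]

theorem WCyc.out_size (h : WCyc b c n lam W) (hc : Ctx v b c) (hz : CharZ v)
    (hr : Rot v b c q) {i0 : ℕ} (h0 : v (W i0) ≤ 1) {i : ℕ} (hi : 1 < v (W i)) :
    v (W i) * v c = 1 := by
  classical
  have hq : 0 < q := by have := hr.two_le; omega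
  -- move `i` past `i0`
  set N := i + (i0 + 1) * n with hN
  have hNW : W N = W i := A5.per_mul h i _
  have hn := h.npos
  have hi0N : i0 ≤ N := by
    have : (i0 + 1) * 1 ≤ (i0 + 1) * n := Nat.mul_le_mul_left _ hn
    omega
  set i1 := Nat.findGreatest (fun t => v (W t) ≤ 1) N with hi1
  have hP : v (W i1) ≤ 1 := Nat.findGreatest_spec (P := fun t => v (W t) ≤ 1) hi0N h0
  have hle : i1 ≤ N := Nat.findGreatest_le N
  have hne : i1 ≠ N := by
    intro heq
    rw [heq, hNW] at hP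
    exact absurd hi (not_lt.2 hP)
  have hlt : i1 < N := lt_of_le_of_ne hle hne
  have hbig : ∀ t, i1 < t → t ≤ N → 1 < v (W t) := by
    intro t h1 h2
    exact not_le.1 (Nat.findGreatest_is_greatest (P := fun t => v (W t) ≤ 1) h1 h2)
  set l := N - i1 with hl
  have hl0 : 0 < l := by omega
  have hil : i1 + l = N := by omega
  -- `v (c * W N) = 1` suffices
  have key : ∀ y : K, v (c * W (i1 + l) - y) < 1 → v y = 1 → v (W i) * v c = 1 := by
    intro y h1 h2
    have h3 := v_eq_one_of_sub h1 h2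
    rw [hil, hNW, map_mul, mul_comm] at h3
    exact h3
  rcases lt_or_eq_of_le hP with hlt1 | heq1
  · obtain ⟨-, s, hsq, hs, -, hnext⟩ := h.hole_next v hc hz hr hlt1
    have hls : l < s := by
      by_contra hge
      rw [not_lt] at hge
      have := hbig (i1 + s) (by have := hs.1; omega) (by omega)
      exact absurd this (not_lt.2 hs.2.1)
    refine key _ (hnext l hl0 hls) ?_
    rw [Valuation.map_sub_swap]
    exact hr.one (s - l) (by omega) (by omega)
  · obtain ⟨h1, h2⟩ := h.central_next v hc hr heq1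
    have hlq : l < q := by
      by_contra hge
      rw [not_lt] at hge
      have h3 := hbig (i1 + q) (by omega) (by omega)
      have h4 : v (W (i1 + q)) ≤ 1 := by
        have e : W (i1 + q) = (W (i1 + q) - (W i1 + (W i1)⁻¹ + TT b c q)) +
            (W i1 + (W i1)⁻¹ + TT b c q) := by ring
        rw [e]
        refine v.map_add_le h2.le (v.map_add_le (v.map_add_le heq1.le ?_) (TT_le_of_rot hc hr))
        rw [map_inv₀, heq1, inv_one]
      exact absurd h3 (not_lt.2 h4)
    refine key _ (h1 l hl0 hlq).2 ?_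
    rw [A5.one_sub_inv hc.vb]
    exact hr.one l hl0 hlq

end Pool.Agent.helper56.P3
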